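import Pool.Agent.K3h44.RQ.Stm4
import Pool.Agent.Y780.WQ.POLE1
import Pool.Agent.Y590.WQ.POLE
import Pool.Agent.Y286.WQ.POLE2

/-! RQ project (helper44, MP_50a406_nt), brick LINE (helper93). -/

set_option autoImplicit false

namespace Pool.Agent.K3h93.RQ

open Polynomial Pool.Agent.Y546.WQ Pool.Agent.Y780.WQ Pool.Agent.K3h44.RQ
open Pool.Agent.Y590.WQ (Lin_natDegree_le sum_Icc)

section
variable (p : ℕ) [hp : Fact p.Prime]

theorem exq_eq : exq (ZMod p) = ex p := rfl

/-- the polynomial `A + t X + B X ^ 2` -/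
noncomputable def qf (A t B : ZMod p) : Polynomial (ZMod p) := C A + C t * X + C B * X ^ 2

theorem qf_natDegree_le (A t B : ZMod p) : (qf p A t B).natDegree ≤ 2 := by
  unfold qf
  compute_degree

theorem qf_natDegree (A t B : ZMod p) (hB : B ≠ 0) : (qf p A t B).natDegree = 2 := by
  unfold qf
  compute_degree!

theorem qf_reflect (A t B : ZMod p) : (qf p A t B).reflect 2 = qf p B t A := by
  ext k
  rw [coeff_reflect]
  unfold qf
  simp only [coeff_add, coeff_C_mul, coeff_C, coeff_X, coeff_X_pow]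
  rcases lt_or_ge 2 k with hk | hk
  · rw [revAt_eq_self_of_lt hk]
    have h0 : k ≠ 0 := by omega
    have h1 : (1 : ℕ) ≠ k := by omega
    have h2 : k ≠ 2 := by omega
    simp [h0, h1, h2]
  · rw [revAt_le hk]
    interval_cases k <;> simp

theorem aeval_qf (A t B : ZMod p) : aeval (ex p) (qf p A t B) =
    PowerSeries.C A + PowerSeries.C t * ex p + PowerSeries.C B * ex p ^ 2 := by
  unfold qf
  rw [map_add, map_add, map_mul, map_mul, map_pow, aeval_X, aeval_C, aeval_C, aeval_C,
    PowerSeries.algebraMap_apply, PowerSeries.algebraMap_apply, PowerSeries.algebraMap_apply,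
    Algebra.algebraMap_self_apply, Algebra.algebraMap_self_apply, Algebra.algebraMap_self_apply]

/-- a linear relation from a power series with many vanishing coefficients -/
theorem rel (W V : Polynomial (ZMod p)) (G : PowerSeries (ZMod p)) (J : Finset ℕ)
    (hW : Eqm (p - 1) (aeval (ex p) W) (aeval (ex p) V * G))
    (hG : ∀ k, k + 2 < p → k + 1 ∉ J → PowerSeries.coeff k G = 0) :
    ∃ b : ℕ → ZMod p, (∃ i, 1 ≤ i ∧ i ≤ J.card + 1 ∧ b i ≠ 0) ∧
      (X - 1) ^ (p - 2) ∣ Lin (J.card + 1) W V b 0 := by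
  set n := J.card + 1 with hn
  obtain ⟨b, hb0, hb⟩ : ∃ b : Fin n → ZMod p, b ≠ 0 ∧ ∀ j ∈ J, ∑ i, b i * ((i : ℕ) + 1 : ZMod p) ^ (j - 1) = 0 := by
    let φ : (Fin n → ZMod p) →ₗ[ZMod p] (J → ZMod p) :=
      LinearMap.pi fun j => ∑ i : Fin n, (((i : ℕ) + 1 : ZMod p) ^ ((j : ℕ) - 1)) • LinearMap.proj i
    have hφ : LinearMap.ker φ ≠ ⊥ := by
      refine LinearMap.ker_ne_bot_of_finrank_lt ?_
      rw [Module.finrank_fintype_fun_eq_card, Module.finrank_fintype_fun_eq_card, Fintype.card_coe,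
        Fintype.card_fin]
      omega
    obtain ⟨b, hb, hb0⟩ := (Submodule.ne_bot_iff _).1 hφ
    refine ⟨b, hb0, fun j hj => ?_⟩
    have h1 := congrFun (LinearMap.mem_ker.1 hb) ⟨j, hj⟩
    simp only [φ, LinearMap.pi_apply, LinearMap.sum_apply, LinearMap.smul_apply, LinearMap.proj_apply,
      smul_eq_mul, Pi.zero_apply] at h1
    rw [← h1]
    exact Finset.sum_congr rfl fun i _ => mul_comm _ _
  set b' : ℕ → ZMod p := fun i => if hi : 1 ≤ i ∧ i ≤ n then b ⟨i - 1, by omega⟩ else 0 with hb'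
  have hsum : ∀ g : ℕ → ZMod p, ∑ i ∈ Finset.Icc 1 n, b' i * g i = ∑ i : Fin n, b i * g ((i : ℕ) + 1) := by
    intro g
    have h1 : Finset.Icc 1 n = Finset.Ico (0 + 1) (n + 1) := by ext x; simp
    rw [h1, ← Finset.sum_Ico_add' (fun i => b' i * g i) 0 n 1, ← Finset.range_eq_Ico,
      ← Fin.sum_univ_eq_sum_range (fun i => b' (i + 1) * g (i + 1)) n]
    refine Finset.sum_congr rfl fun i _ => ?_
    have h2 : b' ((i : ℕ) + 1) = b i := by
      rw [hb']
      simp only
      rw [dif_pos ⟨by omega, by omega⟩]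
      congr 1
    rw [h2]
  refine ⟨b', ?_, ?_⟩
  · obtain ⟨i, hi⟩ := Function.ne_iff.1 hb0
    refine ⟨i + 1, by omega, by omega, ?_⟩
    rw [hb']
    simp only
    rw [dif_pos ⟨by omega, by omega⟩]
    simpa using hi
  · refine dvd_of_eqm p ?_
    set Ve := aeval (ex p) V with hVe
    have hVk : ∀ k : ℕ, Eqm (p - 1) (aeval (ex p) (V.comp (X ^ k)))
        (PowerSeries.rescale (k : ZMod p) Ve) := by
      intro k
      exact (aeval_pow p k _).mono (by omega)
    have hWk : ∀ k : ℕ, Eqm (p - 1) (aeval (ex p) (W.comp (X ^ k)))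
        (PowerSeries.rescale (k : ZMod p) Ve * PowerSeries.rescale (k : ZMod p) G) := by
      intro k
      rw [← map_mul]
      exact ((aeval_pow p k _).mono (by omega)).trans (hW.rescale _)
    have h1 : Eqm (p - 1) (aeval (ex p) (Lin n W V b' 0))
        ((∑ i ∈ Finset.Icc 1 n, PowerSeries.C (b' i) * PowerSeries.rescale (i : ZMod p) G) *
          ∏ k ∈ Finset.Icc 1 n, PowerSeries.rescale (k : ZMod p) Ve) := by
      rw [Lin, map_zero, zero_mul, sub_zero, map_sum, Finset.sum_mul]
      refine Eqm.sum _ fun i hi => ?_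
      rw [map_mul, map_mul, map_prod, aeval_C]
      have h2 : Eqm (p - 1) (algebraMap (ZMod p) (PowerSeries (ZMod p)) (b' i) *
          aeval (ex p) (W.comp (X ^ i)) *
          ∏ k ∈ (Finset.Icc 1 n).erase i, aeval (ex p) (V.comp (X ^ k)))
          (algebraMap (ZMod p) (PowerSeries (ZMod p)) (b' i) *
          (PowerSeries.rescale (i : ZMod p) Ve * PowerSeries.rescale (i : ZMod p) G) *
          ∏ k ∈ (Finset.Icc 1 n).erase i, PowerSeries.rescale (k : ZMod p) Ve) :=
        (Eqm.rfl'.mul (hWk i)).mul (Eqm.prod _ fun k _ => hVk k)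
      refine h2.trans ?_
      rw [← Finset.mul_prod_erase (Finset.Icc 1 n) (fun k : ℕ => PowerSeries.rescale (k : ZMod p) Ve) hi]
      have h3 : algebraMap (ZMod p) (PowerSeries (ZMod p)) (b' i) *
          (PowerSeries.rescale (i : ZMod p) Ve * PowerSeries.rescale (i : ZMod p) G) *
          ∏ k ∈ (Finset.Icc 1 n).erase i, PowerSeries.rescale (k : ZMod p) Ve =
          PowerSeries.C (b' i) * PowerSeries.rescale (i : ZMod p) G *
          (PowerSeries.rescale (i : ZMod p) Ve *
          ∏ k ∈ (Finset.Icc 1 n).erase i, PowerSeries.rescale (k : ZMod p) Ve) := by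
        rw [PowerSeries.algebraMap_apply, Algebra.algebraMap_self_apply]
        ring
      rw [h3]
      exact Eqm.rfl'
    have h4 : Eqm (p - 2) (∑ i ∈ Finset.Icc 1 n, PowerSeries.C (b' i) *
        PowerSeries.rescale (i : ZMod p) G) 0 := by
      intro k hk
      rw [map_sum, map_zero]
      have h5 : ∀ i ∈ Finset.Icc 1 n, PowerSeries.coeff k (PowerSeries.C (b' i) *
          PowerSeries.rescale (i : ZMod p) G) = b' i * (i : ZMod p) ^ k * PowerSeries.coeff k G := by
        intro i _
        rw [PowerSeries.coeff_C_mul, PowerSeries.coeff_rescale]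
        ring
      rw [Finset.sum_congr rfl h5, ← Finset.sum_mul]
      by_cases hkJ : k + 1 ∈ J
      · have h6 := hb (k + 1) hkJ
        have h7 := hsum fun i => (i : ZMod p) ^ k
        rw [h7]
        have h8 : ∑ i : Fin n, b i * ((((i : ℕ) + 1 : ℕ) : ZMod p)) ^ k = 0 := by
          rw [← h6]
          refine Finset.sum_congr rfl fun i _ => ?_
          push_cast
          rfl
        rw [h8, zero_mul]
      · rw [hG k (by omega) hkJ, mul_zero]
    refine (h1.mono (by omega)).trans ?_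
    have h9 := h4.mul (Eqm.rfl' (A := ∏ k ∈ Finset.Icc 1 n, PowerSeries.rescale (k : ZMod p) Ve))
    rwa [zero_mul] at h9

end

theorem t_LINE : S_LINE := by
  intro p hp A t B J hp5 hA hB hAB hJ hJp
  set f := qf p A t B with hf
  set g := qf p B t A with hg
  set F := aeval (ex p) f with hF
  set Fs := aeval (ex p) g with hFs
  have hf1 : f.eval 1 = A + t + B := by
    rw [hf, qf]
    simp
  have hFc : PowerSeries.constantCoeff F ≠ 0 := by
    rw [hF, const_aeval, hf1]
    exact hAB
  set Q : PowerSeries (ZMod p) := quoq A t B with hQ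
  have hQF : Q * F = ex p := by
    rw [hQ, quoq, exq_eq, ← aeval_qf, ← hf, ← hF, mul_assoc, PowerSeries.inv_mul_cancel _ hFc,
      mul_one]
  have hdual := dual p f 2 (qf_natDegree_le p A t B)
  rw [hf, qf_reflect, ← hg, ← hf, ← hF, ← hFs] at hdual
  set Q' : PowerSeries (ZMod p) := PowerSeries.rescale (-1) Q with hQ'
  have hQF' : Q' * PowerSeries.rescale (-1) F = PowerSeries.rescale (-1) (ex p) := by
    rw [hQ', ← map_mul, hQF]
  have hee : Eqm p (ex p * PowerSeries.rescale (-1) (ex p)) 1 := by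
    have h4 := res_add p 1 (-1)
    rwa [PowerSeries.rescale_one, RingHom.id_apply, add_neg_cancel, res_zero] at h4
  have hW : Eqm (p - 1) (aeval (ex p) (X * (f + g))) (aeval (ex p) (f * g) * (Q + Q')) := by
    rw [map_mul, map_add, map_mul, aeval_X, ← hF, ← hFs]
    have h1 : F * Fs * (Q + Q') = ex p * Fs + F * Fs * Q' := by
      rw [← hQF]
      ring
    rw [h1]
    have h2 : Eqm p (F * Fs * Q') (ex p * F) := by
      have h3 : Eqm p (F * Fs * Q') (F * (ex p ^ 2 * PowerSeries.rescale (-1) F) * Q') :=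
        (Eqm.rfl'.mul hdual).mul Eqm.rfl'
      refine h3.trans ?_
      have h4 : F * (ex p ^ 2 * PowerSeries.rescale (-1) F) * Q' =
          F * ex p * (ex p * PowerSeries.rescale (-1) (ex p)) := by
        rw [← hQF']
        ring
      rw [h4]
      refine (Eqm.rfl'.mul hee).trans ?_
      rw [mul_one, mul_comm]
      exact Eqm.rfl'
    have h5 := (Eqm.rfl' (N := p) (A := ex p * Fs)).add h2.symm
    have h6 : ex p * Fs + ex p * F = ex p * (F + Fs) := by ring
    rw [h6] at h5
    exact h5.mono (by omega)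
  have hG : ∀ k, k + 2 < p → k + 1 ∉ J → PowerSeries.coeff k (Q + Q') = 0 := by
    intro k hk hkJ
    rw [map_add, hQ', PowerSeries.coeff_rescale]
    rcases Nat.even_or_odd k with hev | hod
    · have h1 := hJ (k + 1) hev.add_one (by omega) hkJ
      rw [Nat.add_sub_cancel] at h1
      rw [h1, mul_zero, add_zero]
    · rw [hod.neg_one_pow]
      ring
  obtain ⟨b, hb, hdvd⟩ := rel p (X * (f + g)) (f * g) (Q + Q') J hW hG
  have hfd : f.natDegree = 2 := qf_natDegree p A t B hB
  have hgd : g.natDegree = 2 := qf_natDegree p B t A hA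
  have hf0 : f ≠ 0 := fun h => by rw [h, natDegree_zero] at hfd; omega
  have hg0 : g ≠ 0 := fun h => by rw [h, natDegree_zero] at hgd; omega
  have hVd : (f * g).natDegree = 4 := by rw [natDegree_mul hf0 hg0, hfd, hgd]
  have hWd : (X * (f + g)).natDegree ≤ 4 := by
    have h1 : (f + g).natDegree ≤ 2 := (natDegree_add_le f g).trans (by rw [hfd, hgd]; simp)
    have h2 := natDegree_mul_le (p := (X : Polynomial (ZMod p))) (q := f + g)
    rw [natDegree_X] at h2
    omega
  have hL : Lin (J.card + 1) (X * (f + g)) (f * g) b 0 = 0 := by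
    refine eq_zero_of_dvd_of_natDegree_lt hdvd ?_
    have h3 := Lin_natDegree_le (D := 2 * 2) (n := J.card + 1) hWd (le_of_eq hVd) b 0
    rw [sum_Icc] at h3
    refine h3.trans_lt ?_
    have h4 : (X - 1 : Polynomial (ZMod p)) = X - Polynomial.C 1 := by rw [C_1]
    rw [h4, natDegree_pow, natDegree_X_sub_C]
    have h5 : 2 * ((J.card + 1) * (J.card + 1 + 1)) + 3 ≤ p := hJp
    omega
  have hnp : J.card + 1 < p := by nlinarith
  have hV0 : (f * g).coeff 0 ≠ 0 := by
    rw [mul_coeff_zero, hf, hg, qf, qf]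
    simp [hA, hB]
  have hW0 := Pool.Agent.Y286.WQ.mainPOLE2 p (J.card + 1) (X * (f + g)) (f * g) b 0 hnp
    (by rw [hVd]; exact hWd) hV0 (by rw [mul_coeff_zero, coeff_X_zero, zero_mul]) hb hL
  have hfg : f + g = 0 := (mul_eq_zero.1 hW0).resolve_left X_ne_zero
  have h0 := congrArg (fun q => coeff q 0) hfg
  have h1 := congrArg (fun q => coeff q 1) hfg
  have h2 : (2 : ZMod p) ≠ 0 := by
    intro h
    have h3 : ((2 : ℕ) : ZMod p) = 0 := by exact_mod_cast h
    rw [ZMod.natCast_eq_zero_iff] at h3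
    exact absurd (Nat.le_of_dvd (by norm_num) h3) (by omega)
  have e0 : A + B = 0 := by
    rw [hf, hg, qf, qf] at h0
    simpa using h0
  have e1 : t + t = 0 := by
    rw [hf, hg, qf, qf] at h1
    simpa [coeff_X_pow, coeff_C] using h1
  have e2 : t = 0 := by
    have : (2 : ZMod p) * t = 0 := by rw [two_mul]; exact e1
    exact (mul_eq_zero.1 this).resolve_left h2
  apply hAB
  rw [e2, add_zero]
  exact e0

end Pool.Agent.K3h93.RQ
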